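import Pool.Agent.N449.SG.Main

/-!
# Sparse factors of `a b ^ n + k`
-/

set_option autoImplicit false
set_option maxHeartbeats 4000000

namespace Pool.Agent.N449.SH

open Finset Polynomial Pool.Agent.N449.SF Pool.Agent.N449.SG

/-- `a b ^ n X ^ q + k` is irreducible over `ℚ`, if the absolute values of `a b ^ n` and `k` are not both
`r`-th powers for a prime `r ∣ q`. -/
theorem irrk (A k : ℤ) (hA : A ≠ 0) (hk : k ≠ 0) (hcop : IsCoprime A k) (q : ℕ) (hq : 0 < q)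
    (hpow : ∀ r x y : ℕ, r.Prime → r ≤ q → (x : ℤ) ^ r = |k| → (y : ℤ) ^ r = |A| → False) :
    Irreducible (C (A : ℚ) * X ^ q + C (k : ℚ) : ℚ[X]) := by
  have hAQ : (A : ℚ) ≠ 0 := by exact_mod_cast hA
  have hkQ : (k : ℚ) ≠ 0 := by exact_mod_cast hk
  have h1 : (C (A : ℚ) * X ^ q + C (k : ℚ) : ℚ[X]) = C (A : ℚ) * (X ^ q - C (-(k : ℚ) / A)) := by
    rw [mul_sub, ← C_mul]
    have : (A : ℚ) * (-(k : ℚ) / A) = -k := by field_simp
    rw [this, C_neg, sub_neg_eq_add]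
  have hu : IsUnit (C (A : ℚ) : ℚ[X]) := isUnit_C.2 hAQ.isUnit
  rw [h1, irreducible_isUnit_mul hu]
  refine irr_abs _ (by simp [hAQ, hkQ]) q hq fun r hr hrq c hc => ?_
  have hr0 : r ≠ 0 := hr.ne_zero
  -- the absolute values
  have hc1 : |c| ^ r = |(k : ℚ)| / |(A : ℚ)| := by
    rw [← abs_pow, hc, abs_abs, abs_div, abs_neg]
  have hA0 : (0 : ℚ) < |(A : ℚ)| := abs_pos.2 hAQ
  have hnum : (|c|.num.natAbs : ℕ) ^ r * A.natAbs = k.natAbs * |c|.den ^ r := by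
    have e1 : |c| = (|c|.num.natAbs : ℚ) / |c|.den := by
      have h2 := Rat.num_div_den |c|
      have h3 : 0 ≤ |c|.num := Rat.num_nonneg.2 (abs_nonneg _)
      rw [← h2]
      have h5 : ((|c|.num.natAbs : ℕ) : ℚ) = (|c|.num : ℚ) := by
        rw [Nat.cast_natAbs, abs_of_nonneg h3]
      rw [h2, h5]
      exact h2.symm
    have hden : ((|c|.den : ℕ) : ℚ) ≠ 0 := by exact_mod_cast |c|.den_ne_zero
    rw [e1, div_pow, div_eq_div_iff (pow_ne_zero _ hden) hA0.ne'] at hc1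
    have e2 : |(A : ℚ)| = ((A.natAbs : ℕ) : ℚ) := by rw [Nat.cast_natAbs]; simp
    have e3 : |(k : ℚ)| = ((k.natAbs : ℕ) : ℚ) := by rw [Nat.cast_natAbs]; simp
    rw [e2, e3] at hc1
    exact_mod_cast hc1
  have hcop' : Nat.Coprime A.natAbs k.natAbs := Int.isCoprime_iff_nat_coprime.1 hcop
  have hred : Nat.Coprime |c|.num.natAbs |c|.den := |c|.reduced
  have hredr : Nat.Coprime (|c|.num.natAbs ^ r) (|c|.den ^ r) := Nat.Coprime.pow _ _ hred
  have d1 : A.natAbs ∣ |c|.den ^ r := by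
    refine hcop'.dvd_of_dvd_mul_left ?_
    rw [← hnum]
    exact dvd_mul_left _ _
  have d2 : |c|.den ^ r ∣ A.natAbs := by
    refine hredr.symm.dvd_of_dvd_mul_left ?_
    rw [hnum]
    exact dvd_mul_left _ _
  have d3 : A.natAbs = |c|.den ^ r := Nat.dvd_antisymm d1 d2
  have d4 : |c|.num.natAbs ^ r = k.natAbs := by
    rw [d3] at hnum
    have : 0 < |c|.den ^ r := Nat.pow_pos |c|.den_pos
    exact Nat.eq_of_mul_eq_mul_right this hnum
  refine hpow r _ _ hr (Nat.le_of_dvd hq hrq) (?_ : ((|c|.num.natAbs : ℕ) : ℤ) ^ r = |k|)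
    (?_ : ((|c|.den : ℕ) : ℤ) ^ r = |A|)
  · rw [Int.abs_eq_natAbs, ← d4]; push_cast; rfl
  · rw [Int.abs_eq_natAbs, d3]; push_cast; rfl

/-- The polynomial identity contradicts the irreducibility. -/
theorem poly_contra (A k : ℤ) (hcop : IsCoprime A k) (q : ℕ) (hq : 0 < q)
    (hirr : Irreducible (C (A : ℚ) * X ^ q + C (k : ℚ) : ℚ[X])) (d e : ℤ)
    (h : d * e = A + k) (hd : 1 < |d|) (he : 1 < |e|) (D E : ℤ[X])
    (hDE : D * E = C A * X ^ q + C k) (hD : D.eval 1 = d) : False := by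
  have hmap : (D.map (Int.castRingHom ℚ)) * (E.map (Int.castRingHom ℚ))
      = C (A : ℚ) * X ^ q + C (k : ℚ) := by
    rw [← Polynomial.map_mul, hDE, Polynomial.map_add, Polynomial.map_mul, Polynomial.map_C,
      Polynomial.map_pow, Polynomial.map_X, Polynomial.map_C]
    norm_num
  rw [← hmap] at hirr
  have hc0 : (D * E).coeff 0 = k := by
    rw [hDE, coeff_add, coeff_C_mul_X_pow, coeff_C_zero, if_neg (by omega)]
    ring
  have hcq : (D * E).coeff q = A := by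
    rw [hDE, coeff_add, coeff_C_mul_X_pow, if_pos rfl, coeff_C, if_neg (by omega)]
    ring
  have h1 : D.eval 1 * E.eval 1 = A + k := by
    rw [← eval_mul, hDE]
    simp
  have hinj : Function.Injective (Int.castRingHom ℚ) := Int.cast_injective
  have key : ∀ G H : ℤ[X], G * H = D * E → IsUnit (G.map (Int.castRingHom ℚ)) →
      |G.eval 1| = 1 := by
    intro G H hGH hG
    have hdeg := natDegree_eq_zero_of_isUnit hG
    rw [natDegree_map_eq_of_injective hinj] at hdeg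
    obtain ⟨c, hc⟩ : ∃ c, G = C c := ⟨_, eq_C_of_natDegree_eq_zero hdeg⟩
    rw [hc] at hGH ⊢
    have g1 : c ∣ k := by rw [← hc0, ← hGH, coeff_C_mul]; exact dvd_mul_right _ _
    have g2 : c ∣ A := by rw [← hcq, ← hGH, coeff_C_mul]; exact dvd_mul_right _ _
    have g3 : IsUnit c := hcop.isUnit_of_dvd' g2 g1
    simpa using Int.isUnit_iff_abs_eq.1 g3
  have hne : (d : ℤ) ≠ 0 := by
    rintro rfl
    simp at hd
  rcases hirr.isUnit_or_isUnit rfl with hu | hu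
  · have h2 := key D E rfl hu
    rw [hD] at h2
    omega
  · have h2 := key E D (mul_comm _ _) hu
    rw [hD, ← h] at h1
    have h4 : E.eval 1 = e := mul_left_cancel₀ hne h1
    rw [h4] at h2
    omega

/-- The general form: a sparse factorization of `b₀ ^ n + ε` comes from a factorization of the
polynomial `b₀ ^ n X ^ q + ε`. -/
theorem main (b₀ : ℕ) (hb₀ : 2 ≤ b₀) (n : ℕ) (hn0 : 0 < n) (a₀ ε : ℤ) (ha₀ : a₀ ≠ 0) (hε : ε ≠ 0)
    (hcop : IsCoprime (b₀ : ℤ) ε) (d e : ℤ) (h : d * e = a₀ * (b₀ : ℤ) ^ n + ε)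
    (S T : Finset ℕ) (u v : ℕ → ℤ) (hS : d = ∑ i ∈ S, u i * (b₀ : ℤ) ^ i)
    (hT : e = ∑ j ∈ T, v j * (b₀ : ℤ) ^ j)
    (hcon : (b₀ + |a₀| + |ε| + (∑ i ∈ S, |u i|) * (∑ j ∈ T, |v j|)) ^
      (4 * T.card * (8 * T.card) ^ (S.card - 1)) < (b₀ : ℤ) ^ n) :
    ∃ q : ℕ, 0 < q ∧ q < n ∧ ∃ D E : ℤ[X], D * E = C (a₀ * (b₀ : ℤ) ^ n) * X ^ q + C ε ∧
      D.eval 1 = d := by
  classical
  have hb₁ : (1 : ℤ) ≤ b₀ := by exact_mod_cast (by omega : 1 ≤ b₀)
  have hb₂ : (2 : ℤ) ≤ b₀ := by exact_mod_cast hb₀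
  have hε1 : 0 < |ε| := abs_pos.2 hε
  have ha1 : 0 < |a₀| := abs_pos.2 ha₀
  have hodd : ¬ (b₀ : ℤ) ∣ a₀ * (b₀ : ℤ) ^ n + ε := by
    intro h2
    have h3 : (b₀ : ℤ) ∣ a₀ * (b₀ : ℤ) ^ n := Dvd.dvd.mul_left (dvd_pow_self _ hn0.ne') _
    have h4 := (Int.dvd_add_right h3).1 h2
    have h5 : IsUnit (b₀ : ℤ) := hcop.isUnit_of_dvd' dvd_rfl h4
    have h6 := Int.isUnit_iff_abs_eq.1 h5
    rw [abs_of_pos (by linarith)] at h6
    linarith
  have h0S : 0 ∈ S :=
    zero_mem_of_not_dvd b₀ d (fun h2 => hodd (h ▸ Dvd.dvd.mul_right h2 e)) S u hS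
  have h0T : 0 ∈ T :=
    zero_mem_of_not_dvd b₀ e (fun h2 => hodd (h ▸ Dvd.dvd.mul_left h2 d)) T v hT
  set t : ℕ := T.card with ht
  have ht0 : 0 < t := Finset.card_pos.2 ⟨0, h0T⟩
  set A : ℤ := ∑ i ∈ S, |u i| with hA
  set B : ℤ := ∑ j ∈ T, |v j| with hB
  have hA0 : 0 ≤ A := Finset.sum_nonneg fun _ _ => abs_nonneg _
  have hB0 : 0 ≤ B := Finset.sum_nonneg fun _ _ => abs_nonneg _
  have hAB : 0 ≤ A * B := mul_nonneg hA0 hB0
  -- approximation
  obtain ⟨q, hq1, hqQ, hq⟩ := dirichlet n (8 * t) hn0 (by omega) S h0S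
  have hq' : ∀ i : ℕ, ∃ α : ℤ, i ∈ S → ((8 * t : ℕ) : ℤ) * |(q : ℤ) * i - α * n| < n := by
    intro i
    by_cases hi : i ∈ S
    · obtain ⟨α, hα⟩ := hq i hi
      exact ⟨α, fun _ => hα⟩
    · exact ⟨0, fun h => absurd h hi⟩
  choose α hα using hq'
  have hβ' : ∀ j : ℕ, ∃ β : ℤ, 2 * |(q : ℤ) * j - β * n| ≤ n := by
    intro j
    refine ⟨(2 * (q * j) + n) / (2 * n), ?_⟩
    have hpos : (0 : ℤ) < 2 * n := by positivity
    have e1 := Int.emod_add_mul_ediv (2 * ((q : ℤ) * j) + n) (2 * n)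
    have e2 := Int.emod_nonneg (2 * ((q : ℤ) * j) + n) hpos.ne'
    have e3 := Int.emod_lt_of_pos (2 * ((q : ℤ) * j) + n) hpos
    set z := (2 * ((q : ℤ) * j) + n) / (2 * n)
    rw [← abs_of_pos (by norm_num : (0 : ℤ) < 2), ← abs_mul, abs_le]
    constructor <;> nlinarith
  choose β₀ hβ₀ using hβ'
  -- normalise at zero
  set β : ℕ → ℤ := fun j => if j = 0 then 0 else β₀ j with hβdef
  have hβ : ∀ j, 2 * |(q : ℤ) * j - β j * n| ≤ n := by
    intro j
    by_cases hj : j = 0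
    · subst hj; simp [hβdef]
    · simpa [hβdef, hj] using hβ₀ j
  set y : ℕ → ℤ := fun j => |(q : ℤ) * j - β j * n| with hy
  have hy0 : y 0 = 0 := by simp [hy, hβdef]
  obtain ⟨k, hkt, hk⟩ := threshold n t T rfl h0T y hy0
  set T' : Finset ℕ := T.filter (fun j => 2 * t * y j ≤ k * n) with hT'
  set P : ℤ := 8 * t * n with hP
  set Cc : ℤ := 4 * k * n + 2 * n with hCc
  have hnZ : (0 : ℤ) < n := by exact_mod_cast hn0
  have htZ : (0 : ℤ) < t := by exact_mod_cast ht0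
  have hkZ : (0 : ℤ) ≤ k := by positivity
  have hkt' : (k : ℤ) + 1 ≤ t := by exact_mod_cast hkt
  have hC2 : 2 * (n : ℤ) ≤ Cc := by rw [hCc]; nlinarith
  have hPC : 2 * Cc + 4 * n ≤ P := by rw [hCc, hP]; nlinarith
  have hPpos : 0 < P := by rw [hP]; positivity
  have hTm : ∀ j, j ∈ T' ↔ j ∈ T ∧ 2 * t * y j ≤ k * n := fun j => by rw [hT', Finset.mem_filter]
  have hyj : ∀ j, y j = |(q : ℤ) * j - β j * n| := fun j => rfl
  clear_value y T' P Cc A B t
  -- the family of terms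
  obtain ⟨I, hI⟩ : ∃ I : Finset ((ℕ × ℕ) ⊕ Bool), I = (S ×ˢ T).disjSum Finset.univ := ⟨_, rfl⟩
  obtain ⟨x, hx1, hx2, hx3⟩ : ∃ x : (ℕ × ℕ) ⊕ Bool → ℕ, (∀ i j, x (Sum.inl (i, j)) = i + j) ∧
      x (Sum.inr false) = 0 ∧ x (Sum.inr true) = n :=
    ⟨Sum.elim (fun ij => ij.1 + ij.2) (fun b => if b then n else 0), fun _ _ => rfl, rfl, rfl⟩
  obtain ⟨c, hc1, hc2, hc3⟩ : ∃ c : (ℕ × ℕ) ⊕ Bool → ℤ, (∀ i j, c (Sum.inl (i, j)) = u i * v j) ∧
      c (Sum.inr false) = -ε ∧ c (Sum.inr true) = -a₀ :=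
    ⟨Sum.elim (fun ij => u ij.1 * v ij.2) (fun b => if b then -a₀ else -ε), fun _ _ => rfl, rfl, rfl⟩
  obtain ⟨ℓ, hℓ⟩ : ∃ ℓ : (ℕ × ℕ) ⊕ Bool → ℤ, ∀ a, ℓ a = lab Cc P (8 * t * q * x a) :=
    ⟨fun a => lab Cc P (8 * t * q * x a), fun _ => rfl⟩
  -- structure of the terms
  have hnearT : ∀ i ∈ S, ∀ j ∈ T', ℓ (Sum.inl (i, j)) = 2 * (α i + β j) - 1 ∧
      Far n Cc P (8 * t * q * x (Sum.inl (i, j))) := by
    intro i hi j hj
    have h1 := hα i hi
    have h2 := ((hTm j).1 hj).2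
    have e1 : (8 * t * q * x (Sum.inl (i, j)) : ℤ)
        = (α i + β j) * P + (8 * t * (q * i - α i * n) + 8 * t * (q * j - β j * n)) := by
      rw [hx1, hP]
      push_cast
      ring
    rw [hℓ, e1]
    apply near _ _ _ _ _ hnZ hC2 hPC
    have h3 : |8 * (t : ℤ) * (q * i - α i * n)| < n := by
      rw [abs_mul, abs_of_pos (by positivity : (0 : ℤ) < 8 * t)]
      push_cast at h1
      exact h1
    have h4 : |8 * (t : ℤ) * (q * j - β j * n)| ≤ 4 * k * n := by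
      rw [abs_mul, abs_of_pos (by positivity : (0 : ℤ) < 8 * t)]
      rw [hyj] at h2
      linarith
    calc _ ≤ |8 * (t : ℤ) * (q * i - α i * n)| + |8 * (t : ℤ) * (q * j - β j * n)| := abs_add_le _ _
      _ < Cc - n := by rw [hCc]; linarith
  have hawayT : ∀ i ∈ S, ∀ j ∈ T, j ∉ T' → (∃ γ' : ℤ, ℓ (Sum.inl (i, j)) = 2 * γ') ∧
      Far n Cc P (8 * t * q * x (Sum.inl (i, j))) := by
    intro i hi j hj hj'
    have h1 := hα i hi
    have h2 : (k : ℤ) * n < 2 * t * y j := by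
      by_contra hcc
      exact hj' ((hTm j).2 ⟨hj, not_lt.1 hcc⟩)
    have h3 : ((k : ℤ) + 1) * n < 2 * t * y j := by
      by_contra hcc
      exact hk j hj ⟨h2, not_lt.1 hcc⟩
    have e1 : (8 * t * q * x (Sum.inl (i, j)) : ℤ)
        = (α i + β j) * P + (8 * t * (q * i - α i * n) + 8 * t * (q * j - β j * n)) := by
      rw [hx1, hP]
      push_cast
      ring
    rw [hℓ, e1]
    have h4 : |8 * (t : ℤ) * (q * i - α i * n)| < n := by
      rw [abs_mul, abs_of_pos (by positivity : (0 : ℤ) < 8 * t)]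
      push_cast at h1
      exact h1
    have h5 : |8 * (t : ℤ) * (q * j - β j * n)| = 4 * (2 * t * y j) := by
      rw [abs_mul, abs_of_pos (by positivity : (0 : ℤ) < 8 * t)]
      rw [hyj]
      ring
    have h6 : 2 * y j ≤ n := by rw [hyj]; exact hβ j
    apply away _ _ _ _ _ hnZ hC2 hPC
    · have := abs_sub_abs_le_abs_sub (8 * (t : ℤ) * (q * j - β j * n))
        (-(8 * (t : ℤ) * (q * i - α i * n)))
      rw [abs_neg, sub_neg_eq_add, add_comm (8 * (t : ℤ) * (q * j - β j * n))] at this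
      rw [h5] at this
      rw [hCc]
      linarith
    · have := abs_add_le (8 * (t : ℤ) * (q * i - α i * n)) (8 * (t : ℤ) * (q * j - β j * n))
      rw [h5] at this
      have h7 : (t : ℤ) * (2 * y j) ≤ t * n := mul_le_mul_of_nonneg_left h6 htZ.le
      rw [hP]
      linarith
  have hfalse : ℓ (Sum.inr false) = 2 * 0 - 1 ∧ Far n Cc P (8 * t * q * x (Sum.inr false)) := by
    have e1 : (8 * t * q * x (Sum.inr false) : ℤ) = 0 * P + 0 := by rw [hx2]; push_cast; ring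
    rw [hℓ, e1]
    apply near _ _ _ _ _ hnZ hC2 hPC
    simp; linarith
  have htrue : ℓ (Sum.inr true) = 2 * q - 1 ∧ Far n Cc P (8 * t * q * x (Sum.inr true)) := by
    have e1 : (8 * t * q * x (Sum.inr true) : ℤ) = q * P + 0 := by rw [hx3, hP]; ring
    rw [hℓ, e1]
    apply near _ _ _ _ _ hnZ hC2 hPC
    simp; linarith
  have hfar : ∀ a ∈ I, Far n Cc P (8 * t * q * x a) := by
    intro a ha
    rcases a with ⟨i, j⟩ | b
    · have hij : i ∈ S ∧ j ∈ T := by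
        simpa [hI] using ha
      by_cases hj : j ∈ T'
      · exact (hnearT i hij.1 j hj).2
      · exact (hawayT i hij.1 j hij.2 hj).2
    · cases b
      · exact hfalse.2
      · exact htrue.2
  have hsumc : ∑ a ∈ I, |c a| = |a₀| + |ε| + A * B := by
    rw [hI, Finset.sum_disjSum, Finset.sum_product, hA, hB, Finset.sum_mul_sum]
    simp only [hc1, abs_mul]
    simp [hc2, hc3]
    ring
  have hsum : ∑ a ∈ I, c a * (b₀ : ℤ) ^ x a = 0 := by
    rw [hI, Finset.sum_disjSum, Finset.sum_product]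
    simp only [hc1, hx1]
    have : ∑ i ∈ S, ∑ j ∈ T, u i * v j * (b₀ : ℤ) ^ (i + j) = d * e := by
      rw [hS, hT, Finset.sum_mul_sum]
      refine Finset.sum_congr rfl fun i _ => Finset.sum_congr rfl fun j _ => ?_
      rw [pow_add]; ring
    rw [this, h]
    simp [hc2, hc3, hx2, hx3]
    ring
  have hgap : ∀ a ∈ I, ∀ b ∈ I, ℓ a < ℓ b →
      (∑ a ∈ I, |c a|) * (b₀ : ℤ) ^ x a < (b₀ : ℤ) ^ x b := by
    intro a ha b hb hab
    rw [hℓ, hℓ] at hab
    have h1 := gap n Cc P _ _ hPpos (hfar a ha) (hfar b hb) hab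
    rw [hsumc]
    have h2 : (n : ℤ) ≤ 4 * t * q * ((x b : ℤ) - x a) := by nlinarith
    have h3 : x a < x b := by
      by_contra hcc
      have h4 : ((x b : ℤ) - x a) ≤ 0 := by
        have := not_lt.1 hcc
        have : (x b : ℤ) ≤ x a := by exact_mod_cast this
        linarith
      have h5 : 4 * (t : ℤ) * q * ((x b : ℤ) - x a) ≤ 0 :=
        mul_nonpos_of_nonneg_of_nonpos (by positivity) h4
      linarith
    obtain ⟨g, hg⟩ := Nat.exists_eq_add_of_lt h3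
    have hg' : x b = x a + (g + 1) := by omega
    rw [hg', pow_add, mul_comm]
    refine mul_lt_mul_of_pos_left ?_ (by positivity)
    by_contra hcc
    push Not at hcc
    have h6 : n ≤ (g + 1) * (4 * t * q) := by
      have : ((x b : ℤ) - x a) = (g + 1 : ℕ) := by rw [hg']; push_cast; ring
      rw [this] at h2
      have h2' : (n : ℤ) ≤ ((g + 1) * (4 * t * q) : ℕ) := by
        push_cast
        push_cast at h2
        linarith
      exact_mod_cast h2'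
    have h7 : (b₀ : ℤ) ^ n ≤ (b₀ + |a₀| + |ε| + A * B) ^ (4 * t * q) := by
      calc (b₀ : ℤ) ^ n ≤ (b₀ : ℤ) ^ ((g + 1) * (4 * t * q)) := pow_le_pow_right₀ hb₁ h6
        _ = ((b₀ : ℤ) ^ (g + 1)) ^ (4 * t * q) := by rw [pow_mul]
        _ ≤ (|a₀| + |ε| + A * B) ^ (4 * t * q) := pow_le_pow_left₀ (by positivity) hcc _
        _ ≤ (b₀ + |a₀| + |ε| + A * B) ^ (4 * t * q) :=
          pow_le_pow_left₀ (by linarith) (by linarith) _
    have h8 : (b₀ + |a₀| + |ε| + A * B) ^ (4 * t * q) ≤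
        (b₀ + |a₀| + |ε| + A * B) ^ (4 * t * (8 * t) ^ (S.card - 1)) := by
      apply pow_le_pow_right₀ (by linarith)
      exact Nat.mul_le_mul_left _ hqQ
    exact absurd (lt_of_le_of_lt (h7.trans h8) hcon) (lt_irrefl _)
  -- non-negativity of the exponents
  have hαnn : ∀ i ∈ S, 0 ≤ α i := by
    intro i hi
    by_contra hcc
    push Not at hcc
    have h1 := hα i hi
    have h2 : (n : ℤ) ≤ q * i - α i * n := by
      have : (0 : ℤ) ≤ (q : ℤ) * i := by positivity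
      nlinarith
    have h3 : (n : ℤ) ≤ |(q : ℤ) * i - α i * n| := h2.trans (le_abs_self _)
    have h4 : (1 : ℤ) ≤ ((8 * t : ℕ) : ℤ) := by exact_mod_cast (by omega : 1 ≤ 8 * t)
    nlinarith [abs_nonneg ((q : ℤ) * i - α i * n)]
  have hβnn : ∀ j, 0 ≤ β j := by
    intro j
    by_contra hcc
    push Not at hcc
    have h1 := hβ j
    have h2 : (n : ℤ) ≤ q * j - β j * n := by
      have : (0 : ℤ) ≤ (q : ℤ) * j := by positivity
      nlinarith
    have h3 : (n : ℤ) ≤ |(q : ℤ) * j - β j * n| := h2.trans (le_abs_self _)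
    linarith
  -- the polynomials
  set D : ℤ[X] := ∑ i ∈ S, C (u i * (b₀ : ℤ) ^ i) * X ^ (α i).toNat with hD
  set E : ℤ[X] := ∑ j ∈ T', C (v j * (b₀ : ℤ) ^ j) * X ^ (β j).toNat with hE
  have hDE : D * E = C (a₀ * (b₀ : ℤ) ^ n) * X ^ q + C ε := by
    ext γ
    have hb := block b₀ hb₀ I x c ℓ hsum hgap (2 * γ - 1)
    rw [Finset.sum_filter, hI, Finset.sum_disjSum] at hb
    simp only [Fintype.univ_bool, Finset.sum_insert, Finset.mem_singleton, Bool.true_eq_false,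
      not_false_eq_true, Finset.sum_singleton] at hb
    rw [hfalse.1, htrue.1] at hb
    have e1 : (D * E).coeff γ = ∑ a ∈ S ×ˢ T,
        (if ℓ (Sum.inl a) = 2 * (γ : ℤ) - 1 then c (Sum.inl a) * (b₀ : ℤ) ^ x (Sum.inl a) else 0) := by
      rw [hD, hE, Finset.sum_mul_sum, Finset.sum_product, Polynomial.finsetSum_coeff]
      refine Finset.sum_congr rfl fun i hi => ?_
      rw [Polynomial.finsetSum_coeff, hT', Finset.sum_filter]
      refine Finset.sum_congr rfl fun j hj => ?_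
      have e2 : (C (u i * (b₀ : ℤ) ^ i) * X ^ (α i).toNat * (C (v j * (b₀ : ℤ) ^ j) * X ^ (β j).toNat) : ℤ[X])
          = C (u i * v j * (b₀ : ℤ) ^ (i + j)) * X ^ ((α i).toNat + (β j).toNat) := by
        rw [pow_add, pow_add]
        simp only [C_mul]
        ring
      rw [e2, coeff_C_mul_X_pow]
      have e3 : (γ = (α i).toNat + (β j).toNat) ↔ (α i + β j = γ) := by
        have := Int.toNat_of_nonneg (hαnn i hi)
        have := Int.toNat_of_nonneg (hβnn j)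
        omega
      by_cases hjT : 2 * t * y j ≤ k * n
      · have hj' : j ∈ T' := (hTm j).2 ⟨hj, hjT⟩
        rw [if_pos hjT, (hnearT i hi j hj').1]
        have e4 : (2 * (α i + β j) - 1 = 2 * (γ : ℤ) - 1) ↔ (α i + β j = γ) := by
          constructor <;> intro h <;> linarith
        by_cases hh : α i + β j = γ
        · rw [if_pos (e3.2 hh), if_pos (e4.2 hh)]
          rw [hc1, hx1]
        · rw [if_neg (fun h => hh (e3.1 h)), if_neg (fun h => hh (e4.1 h))]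
      · have hj' : j ∉ T' := fun h => hjT ((hTm j).1 h).2
        rw [if_neg hjT]
        obtain ⟨γ', hγ'⟩ := (hawayT i hi j hj hj').1
        rw [hγ', if_neg]
        omega
    rw [e1]
    have e5 : ∀ z : ℤ, z + ((if 2 * (q : ℤ) - 1 = 2 * (γ : ℤ) - 1 then
        c (Sum.inr true) * (b₀ : ℤ) ^ x (Sum.inr true) else 0) + (if 2 * 0 - 1 = 2 * (γ : ℤ) - 1 then
        c (Sum.inr false) * (b₀ : ℤ) ^ x (Sum.inr false) else 0)) = 0 →
        z = (C (a₀ * (b₀ : ℤ) ^ n) * X ^ q + C ε : ℤ[X]).coeff γ := by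
      intro z hz
      rw [coeff_add, coeff_C_mul_X_pow, coeff_C]
      have e6 : (2 * (q : ℤ) - 1 = 2 * (γ : ℤ) - 1) ↔ γ = q := by omega
      have e7 : (2 * 0 - 1 = 2 * (γ : ℤ) - 1) ↔ γ = 0 := by omega
      simp only [e6, e7, hc2, hc3, hx2, hx3] at hz
      by_cases g1 : γ = q
      · by_cases g2 : γ = 0
        · omega
        · simp [g1] at hz ⊢
          have : q ≠ 0 := by omega
          simp [this] at hz ⊢
          linarith
      · by_cases g2 : γ = 0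
        · subst g2
          have : ¬ (0 = q) := g1
          simp [this] at hz ⊢
          linarith
        · simp [g1, g2] at hz ⊢
          linarith
    exact e5 _ (by simpa using hb)
  have hDe : D.eval 1 = d := by
    rw [hD, hS, Polynomial.eval_finsetSum]
    simp
  -- q < n
  have hqn : q < n := by
    by_contra hcc
    push Not at hcc
    have h1 : n ≤ 4 * t * (8 * t) ^ (S.card - 1) := by
      have h2 : (8 * t) ^ (S.card - 1) ≤ 4 * t * (8 * t) ^ (S.card - 1) :=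
        Nat.le_mul_of_pos_left _ (by omega)
      omega
    have h3 : (b₀ : ℤ) ^ n ≤ (b₀ + |a₀| + |ε| + A * B) ^ (4 * t * (8 * t) ^ (S.card - 1)) :=
      calc (b₀ : ℤ) ^ n ≤ (b₀ : ℤ) ^ (4 * t * (8 * t) ^ (S.card - 1)) := pow_le_pow_right₀ hb₁ h1
        _ ≤ (b₀ + |a₀| + |ε| + A * B) ^ (4 * t * (8 * t) ^ (S.card - 1)) :=
          pow_le_pow_left₀ (by linarith) (by linarith) _
    exact absurd (lt_of_le_of_lt h3 hcon) (lt_irrefl _)
  exact ⟨q, by omega, hqn, D, E, hDE, hDe⟩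

/-- **Sparse factors of `a b ^ n + k`.** -/
theorem final (b₀ : ℕ) (hb₀ : 2 ≤ b₀) (n : ℕ) (hn0 : 0 < n) (a₀ k : ℤ) (ha₀ : a₀ ≠ 0) (hk : k ≠ 0)
    (hcop : IsCoprime (a₀ * b₀) k)
    (hpow : ∀ r x y : ℕ, r.Prime → r < n → (x : ℤ) ^ r = |k| → (y : ℤ) ^ r = |a₀| * (b₀ : ℤ) ^ n → False)
    (d e : ℤ) (h : d * e = a₀ * (b₀ : ℤ) ^ n + k)
    (hd : 1 < |d|) (he : 1 < |e|)
    (S T : Finset ℕ) (u v : ℕ → ℤ) (hS : d = ∑ i ∈ S, u i * (b₀ : ℤ) ^ i)
    (hT : e = ∑ j ∈ T, v j * (b₀ : ℤ) ^ j) :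
    (b₀ : ℤ) ^ n ≤ (b₀ + |a₀| + |k| + (∑ i ∈ S, |u i|) * (∑ j ∈ T, |v j|))
      ^ (4 * T.card * (8 * T.card) ^ (S.card - 1)) := by
  by_contra hcon
  push Not at hcon
  have hcb : IsCoprime (b₀ : ℤ) k := hcop.of_mul_left_right
  have hca : IsCoprime a₀ k := hcop.of_mul_left_left
  obtain ⟨q, hq, hqp, D, E, hDE, hD⟩ := main b₀ hb₀ n hn0 a₀ k ha₀ hk hcb d e h S T u v hS hT hcon
  have hcop' : IsCoprime (a₀ * (b₀ : ℤ) ^ n) k := IsCoprime.mul_left hca hcb.pow_left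
  have hb0 : (b₀ : ℤ) ≠ 0 := by exact_mod_cast (by omega : b₀ ≠ 0)
  refine poly_contra (a₀ * (b₀ : ℤ) ^ n) k hcop' q hq ?_ d e h hd he D E hDE hD
  refine irrk _ k (mul_ne_zero ha₀ (pow_ne_zero _ hb0)) hk hcop' q hq fun r x y hr hrq hx hy => ?_
  refine hpow r x y hr (by omega) hx ?_
  rw [hy, abs_mul, abs_of_pos (by positivity : (0 : ℤ) < (b₀ : ℤ) ^ n)]

end Pool.Agent.N449.SH
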